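import Mathlib

/-! Signs and tails from the first four moments (helper694). -/

set_option autoImplicit false
open MeasureTheory Filter Topology
open scoped ENNReal

namespace Run7.h694.PF

noncomputable section

/-- the moments of a law -/
structure Mo (P : Measure ℝ) (κ : ℝ) : Prop where
  i4 : Integrable (fun x : ℝ => x ^ 4) P
  m1 : ∫ x, x ∂P = 0
  m2 : ∫ x, x ^ 2 ∂P = 1
  m3 : ∫ x, x ^ 3 ∂P = 0
  m4 : ∫ x, x ^ 4 ∂P ≤ κ

lemma powi (P : Measure ℝ) [IsFiniteMeasure P] (i4 : Integrable (fun x : ℝ => x ^ 4) P) {k : ℕ}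
    (hk : k ≤ 4) : Integrable (fun x : ℝ => x ^ k) P := by
  refine Integrable.mono' ((integrable_const (1 : ℝ)).add i4)
    (by fun_prop) (ae_of_all _ fun p => ?_)
  show ‖p ^ k‖ ≤ 1 + p ^ 4
  rw [Real.norm_eq_abs, abs_pow]
  have e4 : p ^ 4 = |p| ^ 4 := by rw [← abs_pow, abs_of_nonneg (by positivity)]
  rw [e4]
  rcases le_total |p| 1 with h | h
  · have := pow_le_one₀ (n := k) (abs_nonneg p) h
    have : 0 ≤ |p| ^ 4 := by positivity
    linarith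
  · have := pow_le_pow_right₀ h hk
    linarith

/-- the integral of a polynomial of degree four -/
lemma Mo.poly {P : Measure ℝ} [IsProbabilityMeasure P] {κ : ℝ} (M : Mo P κ) (a b c d e : ℝ) :
    Integrable (fun x : ℝ => a * x ^ 4 + b * x ^ 3 + c * x ^ 2 + d * x + e) P ∧
      ∫ x, (a * x ^ 4 + b * x ^ 3 + c * x ^ 2 + d * x + e) ∂P = a * (∫ x, x ^ 4 ∂P) + c + e := by
  have j4 := M.i4.const_mul a
  have j3 := (powi P M.i4 (k := 3) (by norm_num)).const_mul b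
  have j2 := (powi P M.i4 (k := 2) (by norm_num)).const_mul c
  have j1 : Integrable (fun x : ℝ => d * x) P := by
    have := (powi P M.i4 (k := 1) (by norm_num)).const_mul d
    simpa only [pow_one] using this
  have j0 : Integrable (fun _ : ℝ => e) P := integrable_const e
  have j43 : Integrable (fun x : ℝ => a * x ^ 4 + b * x ^ 3) P := j4.add j3
  have j432 : Integrable (fun x : ℝ => a * x ^ 4 + b * x ^ 3 + c * x ^ 2) P := j43.add j2
  have j4321 : Integrable (fun x : ℝ => a * x ^ 4 + b * x ^ 3 + c * x ^ 2 + d * x) P := j432.add j1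
  refine ⟨j4321.add j0, ?_⟩
  rw [integral_add j4321 j0, integral_add j432 j1, integral_add j43 j2, integral_add j4 j3,
    integral_const_mul, integral_const_mul,
    integral_const_mul, integral_const_mul, M.m1, M.m2, M.m3, integral_const]
  simp

lemma Mo.one_le {P : Measure ℝ} [IsProbabilityMeasure P] {κ : ℝ} (M : Mo P κ) : 1 ≤ κ := by
  have h := (M.poly 1 0 (-2) 0 1)
  have h0 : 0 ≤ ∫ x, (1 * x ^ 4 + 0 * x ^ 3 + (-2) * x ^ 2 + 0 * x + 1) ∂P :=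
    integral_nonneg fun x => by
      show 0 ≤ 1 * x ^ 4 + 0 * x ^ 3 + (-2) * x ^ 2 + 0 * x + 1
      nlinarith [sq_nonneg (x ^ 2 - 1)]
  rw [h.2] at h0
  linarith [M.m4]

/-- the positive values have probability at least `1 / (2 κ)` -/
theorem Mo.sign {P : Measure ℝ} [IsProbabilityMeasure P] {κ : ℝ} (M : Mo P κ) :
    1 / (2 * κ) ≤ P.real (Set.Ioi 0) := by
  have k1 := M.one_le
  obtain ⟨a, ha, a2⟩ : ∃ a : ℝ, 0 < a ∧ a ^ 2 = κ :=
    ⟨√κ, Real.sqrt_pos.2 (by linarith), Real.sq_sqrt (by linarith)⟩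
  have a4 : a ^ 4 = κ ^ 2 := by rw [← a2]; ring
  obtain ⟨A, hA⟩ : ∃ A : ℝ, A = 1 / (4 * a ^ 4) := ⟨_, rfl⟩
  have A0 : 0 < A := by rw [hA]; positivity
  have A1 : A * (4 * a ^ 4) = 1 := by rw [hA]; field_simp
  have h := M.poly (-2 * A) (-a * A) (4 * a ^ 2 * A) (3 * a ^ 3 * A) 0
  rw [← integral_indicator_one measurableSet_Ioi]
  have h1 : ∫ x, (-2 * A * x ^ 4 + -a * A * x ^ 3 + 4 * a ^ 2 * A * x ^ 2 + 3 * a ^ 3 * A * x + 0) ∂P ≤
      ∫ x, (Set.Ioi (0 : ℝ)).indicator (1 : ℝ → ℝ) x ∂P := by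
    refine integral_mono h.1 ((integrable_const (1 : ℝ)).indicator measurableSet_Ioi) fun x => ?_
    have e1 : -2 * A * x ^ 4 + -a * A * x ^ 3 + 4 * a ^ 2 * A * x ^ 2 + 3 * a ^ 3 * A * x + 0 =
        A * (x * (x + a) ^ 2 * (3 * a - 2 * x)) := by ring
    show -2 * A * x ^ 4 + -a * A * x ^ 3 + 4 * a ^ 2 * A * x ^ 2 + 3 * a ^ 3 * A * x + 0 ≤ _
    rw [e1]
    by_cases hx : 0 < x
    · rw [Set.indicator_of_mem (show x ∈ Set.Ioi (0 : ℝ) from hx), Pi.one_apply, ← A1]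
      have h2 : 0 ≤ (x - a) ^ 2 * (2 * x ^ 2 + 5 * a * x + 4 * a ^ 2) := by positivity
      have h3 : A * (4 * a ^ 4) - A * (x * (x + a) ^ 2 * (3 * a - 2 * x)) =
          A * ((x - a) ^ 2 * (2 * x ^ 2 + 5 * a * x + 4 * a ^ 2)) := by ring
      have h4 := mul_nonneg A0.le h2
      linarith
    · rw [Set.indicator_of_notMem (show x ∉ Set.Ioi (0 : ℝ) from hx)]
      have hx' : 0 ≤ -x := by linarith
      have h2 : 0 ≤ (-x) * (x + a) ^ 2 * (3 * a - 2 * x) := by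
        have : 0 ≤ 3 * a - 2 * x := by linarith
        positivity
      have h4 := mul_nonneg A0.le h2
      have h5 : A * (x * (x + a) ^ 2 * (3 * a - 2 * x)) =
        -(A * ((-x) * (x + a) ^ 2 * (3 * a - 2 * x))) := by ring
      rw [h5]
      linarith
  refine le_trans ?_ h1
  rw [h.2]
  have h6 : 1 / (2 * κ) = -2 * A * κ + 4 * a ^ 2 * A + 0 := by
    rw [hA, a4, a2]
    field_simp
    ring
  rw [h6]
  have h7 : 2 * A * ∫ x, x ^ 4 ∂P ≤ 2 * A * κ := mul_le_mul_of_nonneg_left M.m4 (by positivity)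
  linarith

/-- the tail bound -/
theorem Mo.tail {P : Measure ℝ} [IsProbabilityMeasure P] {κ : ℝ} (M : Mo P κ) (hκ : 1 < κ) {t : ℝ}
    (ht : 1 ≤ t) : P.real (Set.Ici t) ≤ 1 / (1 + t ^ 2 + (t ^ 2 - 1) ^ 2 / (κ - 1)) := by
  obtain ⟨r, hr⟩ : ∃ r : ℝ, r = (t ^ 2 - 1) / (κ - 1) := ⟨_, rfl⟩
  have k0 : 0 < κ - 1 := by linarith
  have t2 : 0 ≤ t ^ 2 - 1 := by nlinarith
  have r0 : 0 ≤ r := by rw [hr]; positivity
  have er : r * (κ - 1) = t ^ 2 - 1 := by rw [hr]; field_simp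
  obtain ⟨K, hK⟩ : ∃ K : ℝ, K = 1 + t ^ 2 + r * (t ^ 2 - 1) := ⟨_, rfl⟩
  have K0 : 0 < K := by rw [hK]; positivity
  have eK : 1 + t ^ 2 + (t ^ 2 - 1) ^ 2 / (κ - 1) = K := by rw [hK, hr]; field_simp
  rw [eK]
  -- the polynomial `(1 + t x + r (x ^ 2 - 1)) ^ 2 / K ^ 2`
  have h := M.poly (r ^ 2 / K ^ 2) (2 * t * r / K ^ 2) ((t ^ 2 + 2 * r * (1 - r)) / K ^ 2)
    (2 * t * (1 - r) / K ^ 2) ((1 - r) ^ 2 / K ^ 2)
  have e0 : ∀ x : ℝ, r ^ 2 / K ^ 2 * x ^ 4 + 2 * t * r / K ^ 2 * x ^ 3 +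
      (t ^ 2 + 2 * r * (1 - r)) / K ^ 2 * x ^ 2 + 2 * t * (1 - r) / K ^ 2 * x + (1 - r) ^ 2 / K ^ 2 =
      ((1 + t * x + r * (x ^ 2 - 1)) / K) ^ 2 := by
    intro x
    field_simp
    ring
  rw [← integral_indicator_one measurableSet_Ici]
  have h1 : ∫ x, (Set.Ici t).indicator (1 : ℝ → ℝ) x ∂P ≤ ∫ x, (r ^ 2 / K ^ 2 * x ^ 4 +
      2 * t * r / K ^ 2 * x ^ 3 + (t ^ 2 + 2 * r * (1 - r)) / K ^ 2 * x ^ 2 +
      2 * t * (1 - r) / K ^ 2 * x + (1 - r) ^ 2 / K ^ 2) ∂P := by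
    refine integral_mono ((integrable_const (1 : ℝ)).indicator measurableSet_Ici) h.1 fun x => ?_
    show _ ≤ r ^ 2 / K ^ 2 * x ^ 4 + 2 * t * r / K ^ 2 * x ^ 3 +
      (t ^ 2 + 2 * r * (1 - r)) / K ^ 2 * x ^ 2 + 2 * t * (1 - r) / K ^ 2 * x + (1 - r) ^ 2 / K ^ 2
    rw [e0]
    by_cases hx : t ≤ x
    · rw [Set.indicator_of_mem (show x ∈ Set.Ici t from hx), Pi.one_apply]
      have h2 : 1 ≤ (1 + t * x + r * (x ^ 2 - 1)) / K := by
        rw [le_div_iff₀ K0, one_mul, hK]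
        have h3 : t ^ 2 ≤ t * x := by nlinarith
        have h4 : t ^ 2 - 1 ≤ x ^ 2 - 1 := by nlinarith
        have h5 := mul_le_mul_of_nonneg_left h4 r0
        linarith
      nlinarith
    · rw [Set.indicator_of_notMem (show x ∉ Set.Ici t from hx)]
      positivity
  refine h1.trans ?_
  rw [h.2]
  have h7 : r ^ 2 / K ^ 2 * ∫ x, x ^ 4 ∂P ≤ r ^ 2 / K ^ 2 * κ :=
    mul_le_mul_of_nonneg_left M.m4 (by positivity)
  have h8 : r ^ 2 / K ^ 2 * κ + (t ^ 2 + 2 * r * (1 - r)) / K ^ 2 + (1 - r) ^ 2 / K ^ 2 = 1 / K := by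
    have h9 : r ^ 2 * κ + (t ^ 2 + 2 * r * (1 - r)) + (1 - r) ^ 2 = K := by
      rw [hK]
      have : r ^ 2 * (κ - 1) = r * (t ^ 2 - 1) := by rw [pow_two, mul_assoc, er]
      linear_combination this
    have : r ^ 2 / K ^ 2 * κ + (t ^ 2 + 2 * r * (1 - r)) / K ^ 2 + (1 - r) ^ 2 / K ^ 2 =
        (r ^ 2 * κ + (t ^ 2 + 2 * r * (1 - r)) + (1 - r) ^ 2) / K ^ 2 := by ring
    rw [this, h9]
    field_simp
  linarith

/-- reflection -/
lemma Mo.neg {P : Measure ℝ} [IsProbabilityMeasure P] {κ : ℝ} (M : Mo P κ) :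
    IsProbabilityMeasure (P.map (MeasurableEquiv.neg ℝ)) ∧ Mo (P.map (MeasurableEquiv.neg ℝ)) κ := by
  refine ⟨Measure.isProbabilityMeasure_map (MeasurableEquiv.neg ℝ).measurable.aemeasurable, ?_⟩
  have e : ∀ g : ℝ → ℝ, ∫ x, g x ∂(P.map (MeasurableEquiv.neg ℝ)) = ∫ x, g (-x) ∂P := fun g =>
    integral_map_equiv (MeasurableEquiv.neg ℝ) g
  refine ⟨?_, ?_, ?_, ?_, ?_⟩
  · rw [integrable_map_equiv]
    refine M.i4.congr (ae_of_all _ fun x => ?_)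
    show x ^ 4 = (-x) ^ 4
    ring
  · rw [e, integral_neg, M.m1, neg_zero]
  · rw [e]; simp only [neg_sq]; exact M.m2
  · rw [e]
    have : ∀ x : ℝ, (-x) ^ 3 = -(x ^ 3) := fun x => by ring
    simp only [this]
    rw [integral_neg, M.m3, neg_zero]
  · rw [e]
    have : ∀ x : ℝ, (-x) ^ 4 = x ^ 4 := fun x => by ring
    simp only [this]
    exact M.m4

lemma neg_real {P : Measure ℝ} (S : Set ℝ) :
    (P.map (MeasurableEquiv.neg ℝ)).real S = P.real {x | -x ∈ S} := by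
  rw [measureReal_def, measureReal_def, MeasurableEquiv.map_apply]
  rfl

theorem Mo.all {P : Measure ℝ} [IsProbabilityMeasure P] {κ : ℝ} (M : Mo P κ) (hκ : 1 < κ) :
    1 / (2 * κ) ≤ P.real (Set.Ioi 0) ∧ 1 / (2 * κ) ≤ P.real (Set.Iio 0) ∧
    ∀ t : ℝ, 1 ≤ t →
      P.real (Set.Ici t) ≤ 1 / (1 + t ^ 2 + (t ^ 2 - 1) ^ 2 / (κ - 1)) ∧
      P.real (Set.Iic (-t)) ≤ 1 / (1 + t ^ 2 + (t ^ 2 - 1) ^ 2 / (κ - 1)) := by
  obtain ⟨h1, h2⟩ := M.neg
  refine ⟨M.sign, ?_, fun t ht => ⟨M.tail hκ ht, ?_⟩⟩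
  · have h := h2.sign
    rw [neg_real] at h
    have e : {x : ℝ | -x ∈ Set.Ioi (0 : ℝ)} = Set.Iio 0 := by
      ext x
      show 0 < -x ↔ x < 0
      constructor <;> intro h <;> linarith
    rwa [e] at h
  · have h := h2.tail hκ ht
    rw [neg_real] at h
    have e : {x : ℝ | -x ∈ Set.Ici t} = Set.Iic (-t) := by
      ext x
      show t ≤ -x ↔ x ≤ -t
      constructor <;> intro h <;> linarith
    rwa [e] at h

end

end Run7.h694.PF
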