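import Pool.Agent.Run7.h694.FM.E
import Pool.Agent.Y139.PD.L

/-! An open set of the plane as a surface with one chart (helper694). -/

set_option autoImplicit false
open MeasureTheory Filter Topology Complex ProbabilityTheory
open scoped ContDiff ENNReal BoundedContinuousFunction

namespace Run7.h694.PF

noncomputable section

open Pool.Agent.N252.TV Pool.Agent.N252.LL Pool.Agent.W745.RW Run7.h694.FM
open Pool.Agent.Y139.PD (GHyp layer exists_cutC)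

/-- the normalised derivative `λ^{-1/2} (∂x - i ∂y)` -/
def D0 (lam : ℝ) (f : ℂ → ℂ) (z : ℂ) : ℂ :=
  ((1 / √lam : ℝ) : ℂ) * (dx f z - I * dy f z)

lemma D0_congr {lam : ℝ} {f g : ℂ → ℂ} {z : ℂ} (h : f =ᶠ[𝓝 z] g) : D0 lam f =ᶠ[𝓝 z] D0 lam g := by
  filter_upwards [h.fderiv (𝕜 := ℝ)] with w hw
  simp only [D0, dx, dy, hw]

lemma D0_iter {lam : ℝ} {f g : ℂ → ℂ} {z : ℂ} (h : f =ᶠ[𝓝 z] g) (k : ℕ) :
    (D0 lam)^[k] f =ᶠ[𝓝 z] (D0 lam)^[k] g := by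
  induction k with
  | zero => exact h
  | succ k ih =>
    rw [Function.iterate_succ_apply', Function.iterate_succ_apply']
    exact D0_congr ih

lemma D_one (lam : ℝ) :
    Pool.Agent.Results.MP_4fa179_mp.SmallValues.D (fun _ => 1) lam = D0 lam := by
  funext f z
  simp only [Pool.Agent.Results.MP_4fa179_mp.SmallValues.D, D0, mul_one]

/-- the chart -/
def ch (Ω : Set ℂ) (hΩ : IsOpen Ω) : IsoChart ℂ (volume.restrict Ω) where
  c := OpenPartialHomeomorph.ofSet Ω hΩ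
  ρ := fun _ => 1
  smooth := contDiffOn_const
  pos := fun _ _ => one_pos
  area := fun A mA hs => by
    have e : (OpenPartialHomeomorph.ofSet Ω hΩ) '' A = A := by
      rw [OpenPartialHomeomorph.ofSet_apply, Set.image_id]
    have hs' : A ⊆ Ω := hs
    rw [e, Measure.restrict_apply mA, Set.inter_eq_left.2 hs', ENNReal.ofReal_one, lintegral_one,
      Measure.restrict_apply_univ]

variable {Ω : Set ℂ} {hΩ : IsOpen Ω}

lemma ch_t : (ch Ω hΩ).c.target = Ω := rfl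

lemma ch_s : (ch Ω hΩ).c.source = Ω := rfl

lemma ch_symm (z : ℂ) : (ch Ω hΩ).c.symm z = z := rfl

lemma ch_c (z : ℂ) : (ch Ω hΩ).c z = z := rfl

lemma ch_ρ (z : ℂ) : (ch Ω hΩ).ρ z = 1 := rfl

/-- the hypotheses in the plane -/
structure PH (Ω : Set ℂ) (lam : ℕ → ℝ) (u : ℕ → ℂ → ℝ) (ν : Kernel ℂ ℝ) (B : ℝ) : Prop where
  G : GHyp Ω lam u
  pos : ∀ n, 0 < lam n
  l2 : ∀ n, ∫ z in Ω, u n z ^ 2 = (volume Ω).toReal
  l4 : ∀ n, IntegrableOn (fun z => u n z ^ 4) Ω volume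
  bd : ∀ n, ∫ z in Ω, u n z ^ 4 ≤ B
  mar : IsMarkovKernel ν
  sc : ∀ φ, TF Ω φ → ∀ k : ℕ, Tendsto (fun n => ∫ z, (φ z : ℂ) * ((u n z : ℂ) *
      (D0 (lam n))^[k] (fun w => (u n w : ℂ)) z)) atTop
      (𝓝 (∫ z, (φ z : ℂ) * ∫ α, Pool.Agent.Results.MP_4fa179_mp.SmallValues.sym α ^ k ∂(ν z)))
  par : ∀ᵐ z ∂(volume.restrict Ω), Pool.Agent.Results.MP_4fa179_mp.SmallValues.parallel (ν z) = 0

/-- the function `0` outside `Ω` -/
def ex (Ω : Set ℂ) (u : ℕ → ℂ → ℝ) (n : ℕ) : ℂ → ℝ := Ω.indicator (u n)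

lemma ex_on {u : ℕ → ℂ → ℝ} {n : ℕ} {z : ℂ} (hz : z ∈ Ω) : ex Ω u n z = u n z :=
  Set.indicator_of_mem hz _

lemma ex_eq (hΩ : IsOpen Ω) {u : ℕ → ℂ → ℝ} {n : ℕ} {z : ℂ} (hz : z ∈ Ω) :
    ex Ω u n =ᶠ[𝓝 z] u n := by
  filter_upwards [hΩ.mem_nhds hz] with w hw
  exact ex_on hw

variable {lam : ℕ → ℝ} {u : ℕ → ℂ → ℝ} {ν : Kernel ℂ ℝ} {B : ℝ}

lemma PH.meas (H : PH Ω lam u ν B) (n : ℕ) : Measurable (ex Ω u n) := by
  classical
  have h := (H.G.su n).continuousOn.measurable_piecewise (g := fun _ => (0 : ℝ)) continuousOn_const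
    H.G.oΩ.measurableSet
  have e : ex Ω u n = Ω.piecewise (u n) fun _ => (0 : ℝ) := by
    funext z
    by_cases hz : z ∈ Ω
    · rw [ex_on hz, Set.piecewise_eq_of_mem _ _ _ hz]
    · rw [Set.piecewise_eq_of_notMem _ _ _ hz]
      exact Set.indicator_of_notMem hz _
  rw [e]
  convert h

lemma PH.hy (H : PH Ω lam u ν B) :
    Hy (fun _ => ch Ω H.G.oΩ) lam (ex Ω u) (fun _ => ν) B := by
  refine ⟨H.pos, H.G.ll, fun n => ⟨H.meas n, fun i => ?_, fun i z hz => ?_⟩, fun i => H.mar,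
    fun i φ hφ k => ?_, fun i => H.par, fun n => ⟨?_, ?_⟩⟩
  · exact (H.G.su n).congr fun z hz => ex_on hz
  · have hz' : z ∈ Ω := hz
    have e1 : (ex Ω u n ∘ (ch Ω H.G.oΩ).c.symm) =ᶠ[𝓝 z] u n := ex_eq H.G.oΩ hz'
    have e2 := H.G.eq n z hz'
    have e3 : lapl (ex Ω u n ∘ (ch Ω H.G.oΩ).c.symm) z = lapl (u n) z := by
      unfold lapl
      have e4 := e1.fderiv (𝕜 := ℝ)
      have e5 : (fun w => fderiv ℝ (ex Ω u n ∘ (ch Ω H.G.oΩ).c.symm) w 1) =ᶠ[𝓝 z]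
          fun w => fderiv ℝ (u n) w 1 :=
            e4.mono fun w hw => congrArg (fun L : ℂ →L[ℝ] ℝ => L 1) hw
      have e6 : (fun w => fderiv ℝ (ex Ω u n ∘ (ch Ω H.G.oΩ).c.symm) w I) =ᶠ[𝓝 z]
          fun w => fderiv ℝ (u n) w I :=
            e4.mono fun w hw => congrArg (fun L : ℂ →L[ℝ] ℝ => L I) hw
      rw [e5.fderiv_eq, e6.fderiv_eq]
    show lapl (ex Ω u n ∘ (ch Ω H.G.oΩ).c.symm) z + lam n * (1 * ex Ω u n z) = 0
    rw [e3, ex_on hz', one_mul]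
    exact e2
  · have h := H.sc φ hφ k
    show Tendsto (fun n => ∫ z, ((φ z * 1 : ℝ) : ℂ) * ((ex Ω u n z : ℂ) *
      (Pool.Agent.Results.MP_4fa179_mp.SmallValues.D (fun _ => 1) (lam n))^[k]
        (fun w => (ex Ω u n w : ℂ)) z)) atTop
      (𝓝 (∫ z, ((φ z * 1 : ℝ) : ℂ) *
        ∫ α, Pool.Agent.Results.MP_4fa179_mp.SmallValues.sym α ^ k ∂(ν z)))
    simp only [mul_one, D_one]
    refine h.congr fun n => ?_
    refine integral_congr_ae (ae_of_all _ fun z => ?_)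
    show (φ z : ℂ) * ((u n z : ℂ) * (D0 (lam n))^[k] (fun w => (u n w : ℂ)) z) =
      (φ z : ℂ) * ((ex Ω u n z : ℂ) * (D0 (lam n))^[k] (fun w => (ex Ω u n w : ℂ)) z)
    by_cases hz : z ∈ Ω
    · have e1 : (fun w => (ex Ω u n w : ℂ)) =ᶠ[𝓝 z] fun w => (u n w : ℂ) :=
        (ex_eq (u := u) (n := n) H.G.oΩ hz).mono fun w hw => congrArg (fun r : ℝ => (r : ℂ)) hw
      rw [ex_on hz, (D0_iter e1 k).eq_of_nhds]
    · rw [image_eq_zero_of_notMem_tsupport fun h => hz (hφ.2.2 h), ofReal_zero, zero_mul, zero_mul]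
  · refine (H.l4 n).congr_fun (fun z hz => ?_) H.G.oΩ.measurableSet
    show u n z ^ 4 = ex Ω u n z ^ 4
    rw [ex_on hz]
  · refine le_trans (le_of_eq ?_) (H.bd n)
    exact setIntegral_congr_fun H.G.oΩ.measurableSet fun z hz => by
      show ex Ω u n z ^ 4 = u n z ^ 4
      rw [ex_on hz]

/-- a test function as a sum over charts -/
lemma te (hΩ : IsOpen Ω) {φ : ℂ → ℝ} (hφ : TF Ω φ) (h0 : ∀ z, 0 ≤ φ z) :
    IsTe (fun _ => ch Ω hΩ) {0} (fun _ => φ) φ := by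
  refine ⟨fun i _ => hφ, fun i _ => h0, fun x => ?_⟩
  rw [Finset.sum_singleton]
  show φ x = Ω.indicator (fun y => φ y) x
  by_cases hx : x ∈ Ω
  · rw [Set.indicator_of_mem hx]
  · rw [Set.indicator_of_notMem hx, image_eq_zero_of_notMem_tsupport fun h => hx (hφ.2.2 h)]

end

end Run7.h694.PF
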