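import Pool.Agent.Run7.h694.PF.B

/-! From test functions to the whole domain (helper694). -/

set_option autoImplicit false
open MeasureTheory Filter Topology Complex ProbabilityTheory
open scoped ContDiff ENNReal BoundedContinuousFunction

namespace Run7.h694.PF

noncomputable section

open Pool.Agent.N252.TV Pool.Agent.N252.LL Pool.Agent.W745.RW Run7.h694.FM
open Pool.Agent.Y139.PD (GHyp layer exists_cutC)

variable {Ω : Set ℂ} {lam : ℕ → ℝ} {u : ℕ → ℂ → ℝ} {ν : Kernel ℂ ℝ} {B : ℝ}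

lemma PH.fv (H : PH Ω lam u ν B) : IsFiniteMeasure (volume.restrict Ω) :=
  ⟨by rw [Measure.restrict_apply_univ]; exact H.G.fin.lt_top⟩

lemma tfi {φ : ℂ → ℝ} (hφ : TF Ω φ) : Integrable φ :=
  hφ.1.continuous.integrable_of_hasCompactSupport hφ.2.1

lemma PH.cut (H : PH Ω lam u ν B) {x : ℝ} (hx : 0 < x) : ∃ φ : ℂ → ℝ, TF Ω φ ∧ (∀ z, 0 ≤ φ z) ∧
    (∀ z, φ z ≤ 1) ∧ ∫ z in Ω, (1 - φ z) ≤ x * (volume Ω).toReal := by
  have V0 := H.G.pos
  have := H.fv
  obtain ⟨K, hKΩ, hK, hlt⟩ := H.G.oΩ.measurableSet.exists_isCompact_sdiff_lt H.G.fin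
    (ε := ENNReal.ofReal (x * (volume Ω).toReal)) (by
      rw [Ne, ENNReal.ofReal_eq_zero, not_le]; positivity)
  obtain ⟨φ, hφ, φ1, φ2⟩ := exists_cutC H.G.oΩ hK hKΩ
  have T : TF Ω φ := ⟨hφ.1, hφ.2.1, hφ.2.2.1⟩
  refine ⟨φ, T, hφ.2.2.2, φ2, ?_⟩
  have vK : volume.real (Ω \ K) ≤ x * (volume Ω).toReal :=
    ENNReal.toReal_le_of_le_ofReal (by positivity) hlt.le
  refine le_trans ?_ vK
  have mS : MeasurableSet (Ω \ K) := H.G.oΩ.measurableSet.diff hK.measurableSet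
  have e1 : volume.real (Ω \ K) = ∫ z in Ω, (Ω \ K).indicator (fun _ => (1 : ℝ)) z := by
    rw [setIntegral_indicator mS, setIntegral_const, smul_eq_mul, mul_one,
      Set.inter_eq_right.2 Set.sdiff_subset]
  rw [e1]
  refine setIntegral_mono_on ((integrable_const (1 : ℝ)).sub (tfi T).integrableOn)
    ((integrable_const (1 : ℝ)).indicator mS) H.G.oΩ.measurableSet fun z hz => ?_
  by_cases hzK : z ∈ K
  · rw [φ1 z hzK, sub_self]
    exact Set.indicator_nonneg (fun _ _ => zero_le_one) z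
  · rw [Set.indicator_of_mem (show z ∈ Ω \ K from ⟨hz, hzK⟩)]
    linarith [hφ.2.2.2 z]

lemma PH.sm (H : PH Ω lam u ν B) (n : ℕ) (k : ℕ) :
    AEStronglyMeasurable (fun z => u n z ^ k) (volume.restrict Ω) :=
  ((H.G.su n).continuousOn.pow k).aestronglyMeasurable H.G.oΩ.measurableSet

lemma PH.ik (H : PH Ω lam u ν B) (n : ℕ) {k : ℕ} (hk : k ≤ 4) :
    IntegrableOn (fun z => u n z ^ k) Ω := by
  have := H.fv
  refine Integrable.mono' ((integrable_const (1 : ℝ)).add (H.l4 n)) (H.sm n k)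
    (ae_of_all _ fun z => ?_)
  show ‖u n z ^ k‖ ≤ 1 + u n z ^ 4
  rw [Real.norm_eq_abs, abs_pow]
  have e4 : u n z ^ 4 = |u n z| ^ 4 := by rw [← abs_pow, abs_of_nonneg (by positivity)]
  rw [e4]
  rcases le_total |u n z| 1 with h | h
  · have := pow_le_one₀ (n := k) (abs_nonneg (u n z)) h
    have : 0 ≤ |u n z| ^ 4 := by positivity
    linarith
  · have := pow_le_pow_right₀ h hk
    linarith

lemma cube {δ y : ℝ} (hδ : 0 < δ) : |y| ^ 3 ≤ δ * y ^ 4 + 1 / δ ^ 3 := by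
  have e4 : y ^ 4 = |y| ^ 4 := by rw [← abs_pow, abs_of_nonneg (by positivity)]
  rw [e4]
  have h0 := abs_nonneg y
  rcases le_total (1 / δ) |y| with h | h
  · have h1 : 1 ≤ δ * |y| := by rw [div_le_iff₀ hδ] at h; linarith
    have h2 : |y| ^ 3 ≤ δ * |y| ^ 4 := by
      have := mul_le_mul_of_nonneg_right h1 (pow_nonneg h0 3)
      calc |y| ^ 3 = 1 * |y| ^ 3 := (one_mul _).symm
        _ ≤ δ * |y| * |y| ^ 3 := this
        _ = δ * |y| ^ 4 := by ring
    have : 0 ≤ 1 / δ ^ 3 := by positivity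
    linarith
  · have h1 : |y| ^ 3 ≤ (1 / δ) ^ 3 := pow_le_pow_left₀ h0 h 3
    rw [one_div_pow] at h1
    have : 0 ≤ δ * |y| ^ 4 := by positivity
    linarith

/-- the third moment over the whole domain -/
theorem PH.third (H : PH Ω lam u ν B) : Tendsto (fun n => ∫ z in Ω, u n z ^ 3) atTop (𝓝 0) := by
  have V0 := H.G.pos
  have := H.fv
  have B0 : 0 ≤ B := (setIntegral_nonneg H.G.oΩ.measurableSet fun z _ => by positivity).trans
    (H.bd 0)
  obtain ⟨V, hV⟩ : ∃ V, V = (volume Ω).toReal := ⟨_, rfl⟩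
  rw [← hV] at V0
  rw [Metric.tendsto_atTop']
  intro ε ε0
  obtain ⟨δ, hδ, hδB⟩ : ∃ δ : ℝ, 0 < δ ∧ δ * B ≤ ε / 3 := by
    refine ⟨ε / (3 * (B + 1)), by positivity, ?_⟩
    rw [div_mul_eq_mul_div, div_le_div_iff₀ (by positivity) (by norm_num)]
    nlinarith
  obtain ⟨x, hx, hxV⟩ : ∃ x : ℝ, 0 < x ∧ x * V / δ ^ 3 ≤ ε / 3 := by
    refine ⟨ε * δ ^ 3 / (3 * V), by positivity, le_of_eq ?_⟩
    field_simp
  obtain ⟨φ, T, φ0, φ1, φV⟩ := H.cut hx
  rw [← hV] at φV
  have m3 := (H.hy.moments (te H.G.oΩ T φ0)).2.2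
  obtain ⟨N, hN⟩ := Metric.tendsto_atTop'.1 m3 (ε / 3) (by positivity)
  refine ⟨N, fun n hn => ?_⟩
  have h1 := hN n hn
  rw [Real.dist_eq, sub_zero] at h1 ⊢
  have e1 : ∫ x, φ x * ex Ω u n x ^ 3 ∂(volume.restrict Ω) = ∫ z in Ω, φ z * u n z ^ 3 :=
    setIntegral_congr_fun H.G.oΩ.measurableSet fun z hz => by
      show φ z * ex Ω u n z ^ 3 = φ z * u n z ^ 3
      rw [ex_on hz]
  rw [e1] at h1
  have iφ : ∀ k : ℕ, k ≤ 4 → IntegrableOn (fun z => φ z * u n z ^ k) Ω := fun k hk =>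
    Integrable.bdd_mul (c := 1) (H.ik n hk) T.1.continuous.aestronglyMeasurable
      (ae_of_all _ fun z => by rw [Real.norm_eq_abs, abs_of_nonneg (φ0 z)]; exact φ1 z)
  have i3 := H.ik n (k := 3) (by norm_num)
  have j1 : IntegrableOn (fun z => (1 - φ z)) Ω :=
    (integrable_const (1 : ℝ)).sub (tfi T).integrableOn
  have e2 : ∫ z in Ω, u n z ^ 3 = (∫ z in Ω, φ z * u n z ^ 3) + ∫ z in Ω, (u n z ^ 3 - φ z * u n z ^ 3) := by
    rw [integral_sub i3 (iφ 3 (by norm_num))]; ring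
  have h2 : |∫ z in Ω, (u n z ^ 3 - φ z * u n z ^ 3)| ≤ δ * B + x * V / δ ^ 3 := by
    have ij : IntegrableOn (fun z => δ * u n z ^ 4 + (1 - φ z) * (1 / δ ^ 3)) Ω :=
      ((H.l4 n).const_mul δ).add (j1.mul_const _)
    have h3 : |∫ z in Ω, (u n z ^ 3 - φ z * u n z ^ 3)| ≤
        ∫ z in Ω, (δ * u n z ^ 4 + (1 - φ z) * (1 / δ ^ 3)) := by
      refine abs_integral_le_integral_abs.trans ?_
      refine integral_mono (i3.sub (iφ 3 (by norm_num))).abs ij fun z => ?_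
      show |u n z ^ 3 - φ z * u n z ^ 3| ≤ δ * u n z ^ 4 + (1 - φ z) * (1 / δ ^ 3)
      have e3 : u n z ^ 3 - φ z * u n z ^ 3 = (1 - φ z) * u n z ^ 3 := by ring
      have q0 : 0 ≤ 1 - φ z := by linarith [φ1 z]
      have q1 : 1 - φ z ≤ 1 := by linarith [φ0 z]
      rw [e3, abs_mul, abs_of_nonneg q0, abs_pow]
      have h4 := mul_le_mul_of_nonneg_left (cube (y := u n z) hδ) q0
      have h5 : (1 - φ z) * (δ * u n z ^ 4) ≤ 1 * (δ * u n z ^ 4) :=
        mul_le_mul_of_nonneg_right q1 (by positivity)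
      nlinarith
    refine h3.trans ?_
    rw [integral_add ((H.l4 n).const_mul δ) (j1.mul_const _), integral_const_mul,
      integral_mul_const]
    have h6 := mul_le_mul_of_nonneg_left (H.bd n) hδ.le
    have h7 := mul_le_mul_of_nonneg_right φV (show 0 ≤ 1 / δ ^ 3 by positivity)
    have h8 : x * V * (1 / δ ^ 3) = x * V / δ ^ 3 := by ring
    linarith
  rw [e2]
  refine (abs_add_le _ _).trans_lt ?_
  linarith

/-- **Small values over the whole domain.** -/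
theorem PH.small (H : PH Ω lam u ν B) {κ : ℝ} (hκ : ∀ δ : ℝ, 0 < δ → ∀ᶠ n in atTop,
    ∫ z in Ω, u n z ^ 4 ≤ (κ + δ) * (volume Ω).toReal) :
    3 ≤ κ ∧ ∀ η : ℝ, 0 < η → ∃ t : ℝ, 0 < t ∧ ∀ᶠ n in atTop,
      (volume {z | z ∈ Ω ∧ u n z ∈ Set.Icc (-t) t}).toReal ≤
        ((κ - 3) / (κ - 2) + η) * (volume Ω).toReal := by
  have := H.fv
  obtain ⟨V, hV⟩ : ∃ V, V = (volume Ω).toReal := ⟨_, rfl⟩
  have V0 : 0 < V := by rw [hV]; exact H.G.pos
  rw [← hV] at hκ ⊢
  -- one test function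
  have base : ∀ x : ℝ, 0 < x → x ≤ 1 / 2 → ∃ W : ℝ, 0 < W ∧ (1 - x) * V ≤ W ∧ W ≤ V ∧
      3 ≤ κ * V / W ∧ ∀ η : ℝ, 0 < η → ∃ t : ℝ, 0 < t ∧ ∀ᶠ n in atTop,
        (volume {z | z ∈ Ω ∧ u n z ∈ Set.Icc (-t) t}).toReal ≤
          ((κ * V / W - 3) / (κ * V / W - 2) + η) * W + x * V := by
    intro x x0 x1
    obtain ⟨φ, T, φ0, φ1, φV⟩ := H.cut x0
    rw [← hV] at φV
    have iφ : IntegrableOn φ Ω := (tfi T).integrableOn
    have i1 : IntegrableOn (fun _ : ℂ => (1 : ℝ)) Ω := integrable_const (1 : ℝ)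
    have i1φ : IntegrableOn (fun z => 1 - φ z) Ω := i1.sub iφ
    obtain ⟨W, hW⟩ : ∃ W, W = ∫ z in Ω, φ z := ⟨_, rfl⟩
    have eW : ∫ z in Ω, (1 - φ z) = V - W := by
      rw [integral_sub i1 iφ, setIntegral_const, smul_eq_mul, mul_one, hW, hV]; rfl
    have W1 : (1 - x) * V ≤ W := by rw [eW] at φV; linarith
    have W0 : 0 < W := lt_of_lt_of_le (mul_pos (by linarith) V0) W1
    have WV : W ≤ V := by
      have : 0 ≤ ∫ z in Ω, (1 - φ z) := integral_nonneg fun z => by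
        show 0 ≤ 1 - φ z
        linarith [φ1 z]
      linarith
    have hκ2 : ∀ δ : ℝ, 0 < δ → ∀ᶠ n in atTop,
        ∫ x, φ x * ex Ω u n x ^ 4 ∂(volume.restrict Ω) ≤
          (κ * V / W + δ) * ∫ x, φ x ∂(volume.restrict Ω) := by
      intro δ hδ
      filter_upwards [hκ (δ * W / V) (by positivity)] with n hn
      rw [← hW]
      have e1 : ∫ x, φ x * ex Ω u n x ^ 4 ∂(volume.restrict Ω) ≤ ∫ z in Ω, u n z ^ 4 := by
        refine setIntegral_mono_on ?_ (H.l4 n) H.G.oΩ.measurableSet fun z hz => ?_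
        · refine Integrable.bdd_mul (c := 1) ?_ T.1.continuous.aestronglyMeasurable
            (ae_of_all _ fun z => by rw [Real.norm_eq_abs, abs_of_nonneg (φ0 z)]; exact φ1 z)
          exact (H.l4 n).congr_fun (fun z hz => by
            show u n z ^ 4 = ex Ω u n z ^ 4
            rw [ex_on hz]) H.G.oΩ.measurableSet
        · show φ z * ex Ω u n z ^ 4 ≤ u n z ^ 4
          rw [ex_on hz]
          have := mul_le_mul_of_nonneg_right (φ1 z) (show 0 ≤ u n z ^ 4 by positivity)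
          linarith
      refine e1.trans (hn.trans (le_of_eq ?_))
      field_simp
    obtain ⟨k3, hs⟩ := H.hy.small_mass (te H.G.oΩ T φ0) (by rw [← hW]; exact W0) hκ2
    refine ⟨W, W0, W1, WV, k3, fun η hη => ?_⟩
    obtain ⟨t, t0, ht⟩ := hs η hη
    refine ⟨t, t0, ht.mono fun n hn => ?_⟩
    rw [← hW] at hn
    obtain ⟨S, hS⟩ : ∃ S : Set ℂ, S = {x | |ex Ω u n x| ≤ t} := ⟨_, rfl⟩
    have mS : MeasurableSet S := by
      rw [hS]; exact measurableSet_le (H.meas n).abs measurable_const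
    rw [← hS] at hn
    have e1 : {z | z ∈ Ω ∧ u n z ∈ Set.Icc (-t) t} = S ∩ Ω := by
      ext z
      rw [hS]
      constructor
      · rintro ⟨h1, h2⟩
        refine ⟨?_, h1⟩
        show |ex Ω u n z| ≤ t
        rw [ex_on h1]
        exact abs_le.2 h2
      · rintro ⟨h1, h2⟩
        have h3 : |ex Ω u n z| ≤ t := h1
        rw [ex_on h2] at h3
        exact ⟨h2, abs_le.1 h3⟩
    have e2 : (volume (S ∩ Ω)).toReal = ∫ x, S.indicator (fun _ => (1 : ℝ)) x ∂(volume.restrict Ω) := by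
      rw [integral_indicator mS, setIntegral_const, smul_eq_mul, mul_one, measureReal_def,
        Measure.restrict_apply mS]
    rw [e1, e2]
    have h1 : ∫ x, S.indicator (fun _ => (1 : ℝ)) x ∂(volume.restrict Ω) ≤
        ∫ x, (S.indicator φ x + (1 - φ x)) ∂(volume.restrict Ω) := by
      refine integral_mono ((integrable_const (1 : ℝ)).indicator mS)
        ((iφ.indicator mS).add (i1.sub iφ)) fun z => ?_
      show S.indicator (fun _ => (1 : ℝ)) z ≤ S.indicator φ z + (1 - φ z)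
      by_cases hz : z ∈ S
      · rw [Set.indicator_of_mem hz, Set.indicator_of_mem hz]; linarith
      · rw [Set.indicator_of_notMem hz, Set.indicator_of_notMem hz]; linarith [φ1 z]
    refine h1.trans ?_
    rw [integral_add (iφ.indicator mS) i1φ, integral_indicator mS]
    linarith
  -- kappa
  have k3 : 3 ≤ κ := by
    have k0 : 0 < κ := by
      obtain ⟨W, W0, -, -, h, -⟩ := base (1 / 2) (by norm_num) le_rfl
      rw [le_div_iff₀ W0] at h
      by_contra hk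
      have : κ * V ≤ 0 := mul_nonpos_of_nonpos_of_nonneg (not_lt.1 hk) V0.le
      linarith
    refine le_of_forall_pos_le_add fun δ hδ => ?_
    obtain ⟨x, x0, x1, hx⟩ : ∃ x : ℝ, 0 < x ∧ x ≤ 1 / 2 ∧ 3 * x ≤ δ := by
      refine ⟨min (1 / 2) (δ / 3), by positivity, min_le_left _ _, ?_⟩
      have := min_le_right (1 / 2) (δ / 3)
      linarith
    obtain ⟨W, W0, W1, -, h, -⟩ := base x x0 x1
    rw [le_div_iff₀ W0] at h
    have h2 : 3 * ((1 - x) * V) ≤ κ * V := le_trans (by linarith) h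
    have h3 : 3 * (1 - x) ≤ κ := le_of_mul_le_mul_right (by linarith) V0
    linarith
  refine ⟨k3, fun η hη => ?_⟩
  obtain ⟨x, x0, x1, hx⟩ : ∃ x : ℝ, 0 < x ∧ x ≤ 1 / 2 ∧ (2 * κ + 1) * x ≤ η / 2 := by
    have hp : 0 < 2 * κ + 1 := by linarith
    refine ⟨min (1 / 2) (η / (2 * (2 * κ + 1))), by positivity, min_le_left _ _, ?_⟩
    have h1 := mul_le_mul_of_nonneg_left (min_le_right (1 / 2) (η / (2 * (2 * κ + 1)))) hp.le
    refine h1.trans (le_of_eq ?_)
    field_simp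
  obtain ⟨W, W0, W1, WV, h3, h⟩ := base x x0 x1
  obtain ⟨t, t0, ht⟩ := h (η / 2) (by positivity)
  refine ⟨t, t0, ht.mono fun n hn => hn.trans ?_⟩
  obtain ⟨q, hq⟩ : ∃ q, q = κ * V / W := ⟨_, rfl⟩
  rw [← hq] at h3 ⊢
  have qW : q * W = κ * V := by rw [hq]; field_simp
  have q1 : κ ≤ q := by
    refine le_of_mul_le_mul_right ?_ W0
    rw [qW]
    exact mul_le_mul_of_nonneg_left WV (by linarith)
  have q2 : q - κ ≤ 2 * κ * x := by
    refine le_of_mul_le_mul_right ?_ W0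
    rw [sub_mul, qW]
    have h5 : κ * (V - W) ≤ κ * (x * V) := mul_le_mul_of_nonneg_left (by linarith) (by linarith)
    have h6 : V ≤ 2 * W := by
      have : 1 / 2 * V ≤ (1 - x) * V := mul_le_mul_of_nonneg_right (by linarith) V0.le
      linarith
    have h7 : κ * x * V ≤ κ * x * (2 * W) := mul_le_mul_of_nonneg_left h6 (by positivity)
    linarith
  have a1 : (q - 3) / (q - 2) ≤ (κ - 3) / (κ - 2) + (q - κ) := by
    have d1 : 0 < q - 2 := by linarith
    have d2 : 0 < κ - 2 := by linarith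
    rw [div_le_iff₀ d1]
    have : ((κ - 3) / (κ - 2) + (q - κ)) * (q - 2) - (q - 3) =
        (q - κ) * ((q - 2) * (κ - 2) - 1) / (κ - 2) := by
      field_simp
      ring
    have h8 : 1 ≤ (q - 2) * (κ - 2) := by nlinarith
    have h9 : 0 ≤ (q - κ) * ((q - 2) * (κ - 2) - 1) / (κ - 2) := by
      have : 0 ≤ q - κ := by linarith
      have : 0 ≤ (q - 2) * (κ - 2) - 1 := by linarith
      positivity
    linarith
  have a0 : 0 ≤ (κ - 3) / (κ - 2) + (q - κ) + η / 2 := by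
    have : 0 ≤ (κ - 3) / (κ - 2) := div_nonneg (by linarith) (by linarith)
    linarith
  calc ((q - 3) / (q - 2) + η / 2) * W + x * V
      ≤ ((κ - 3) / (κ - 2) + (q - κ) + η / 2) * W + x * V := by
        have := mul_le_mul_of_nonneg_right a1 W0.le
        linarith
    _ ≤ ((κ - 3) / (κ - 2) + (q - κ) + η / 2) * V + x * V := by
        have := mul_le_mul_of_nonneg_left WV a0
        linarith
    _ = ((κ - 3) / (κ - 2) + (q - κ) + η / 2 + x) * V := by ring
    _ ≤ ((κ - 3) / (κ - 2) + η) * V := by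
        refine mul_le_mul_of_nonneg_right ?_ V0.le
        linarith

end

end Run7.h694.PF
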