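import Pool.Agent.Run7.h694.PF.C
import Pool.Agent.Run7.h694.PF.A
import Pool.Agent.Run7.h694.FM.F

/-! Limit laws over the whole domain (helper694). -/

set_option autoImplicit false
open MeasureTheory Filter Topology Complex ProbabilityTheory
open scoped ContDiff ENNReal BoundedContinuousFunction

namespace Run7.h694.PF

noncomputable section

open Pool.Agent.N252.TV Pool.Agent.N252.LL Pool.Agent.W745.RW Run7.h694.FM
open Pool.Agent.Y139.PD (GHyp glaw glaw_int glaw_integrable glaw_prob gmean)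

variable {Ω : Set ℂ} {lam : ℕ → ℝ} {u : ℕ → ℂ → ℝ} {ν : Kernel ℂ ℝ} {B : ℝ}

/-- the embedding of the line into the plane -/
def em (x : ℝ) : ℝ × ℝ := (x, 0)

lemma em_c : Continuous em := by unfold em; fun_prop

lemma map_int (L : Measure ℝ) {F : ℝ × ℝ → ℝ} (hF : Continuous F) :
    ∫ p, F p ∂(L.map em) = ∫ x, F (em x) ∂L :=
  integral_map em_c.measurable.aemeasurable hF.aestronglyMeasurable

lemma map_itg (L : Measure ℝ) {F : ℝ × ℝ → ℝ} (hF : Continuous F) :
    Integrable F (L.map em) ↔ Integrable (fun x => F (em x)) L :=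
  integrable_map_measure hF.aestronglyMeasurable em_c.measurable.aemeasurable

/-- **Limit laws.** -/
theorem PH.law (H : PH Ω lam u ν B) {κ : ℝ} (hκ : ∀ δ : ℝ, 0 < δ → ∀ᶠ n in atTop,
    ∫ z in Ω, u n z ^ 4 ≤ (κ + δ) * (volume Ω).toReal) {σ : ℕ → ℕ} (hσ : StrictMono σ)
    (P : Measure ℝ) [IsProbabilityMeasure P]
    (hP : ∀ g : ℝ → ℝ, Continuous g → (∃ M, ∀ x, |g x| ≤ M) →
      Tendsto (fun n => (∫ z in Ω, g (u (σ n) z)) / (volume Ω).toReal) atTop (𝓝 (∫ x, g x ∂P))) :
    Mo P κ ∧ P.real {0} ≤ (κ - 3) / (κ - 2) := by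
  have V0 := H.G.pos
  have fv := H.fv
  have pr : ∀ n, IsProbabilityMeasure (glaw Ω (u (σ n))) := fun n => glaw_prob H.G (σ n)
  have pr1 : ∀ n, IsProbabilityMeasure ((glaw Ω (u (σ n))).map em) := fun n =>
    Measure.isProbabilityMeasure_map em_c.measurable.aemeasurable
  have pr2 : IsProbabilityMeasure (P.map em) :=
    Measure.isProbabilityMeasure_map em_c.measurable.aemeasurable
  have pk : ∀ k : ℕ, Continuous fun p : ℝ × ℝ => p.1 ^ k := fun k => by fun_prop
  have eL : ∀ n (k : ℕ), ∫ p, p.1 ^ k ∂((glaw Ω (u (σ n))).map em) =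
      (∫ z in Ω, u (σ n) z ^ k) / (volume Ω).toReal := by
    intro n k
    rw [map_int _ (pk k)]
    exact glaw_int H.G (σ n) (continuous_pow k)
  have i4 : ∀ n, Integrable (fun p : ℝ × ℝ => p.1 ^ 4) ((glaw Ω (u (σ n))).map em) := by
    intro n
    rw [map_itg _ (pk 4)]
    exact glaw_integrable H.G (σ n) (g := fun x => x ^ 4) (continuous_pow 4) (H.l4 _)
  have hC : ∀ n, ∫ p, p.1 ^ 4 ∂((glaw Ω (u (σ n))).map em) ≤ B / (volume Ω).toReal := by
    intro n
    rw [eL]
    exact div_le_div_of_nonneg_right (H.bd _) V0.le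
  have hw : ∀ F : (ℝ × ℝ) →ᵇ ℝ, Tendsto (fun n => ∫ p, F p ∂((glaw Ω (u (σ n))).map em)) atTop
      (𝓝 (∫ p, F p ∂(P.map em))) := by
    intro F
    rw [map_int _ F.continuous]
    refine (hP (fun x => F (em x)) (F.continuous.comp em_c)
      ⟨‖F‖, fun x => F.norm_coe_le_norm _⟩).congr fun n => ?_
    rw [map_int _ F.continuous]
    exact (glaw_int H.G (σ n) (F.continuous.comp em_c)).symm
  obtain ⟨m1, m2, m3⟩ := mom_lim hw i4 hC
  have iP : Integrable (fun x : ℝ => x ^ 4) P := (map_itg P (pk 4)).1 m1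
  have eP : ∀ k : ℕ, ∫ p, p.1 ^ k ∂(P.map em) = ∫ x, x ^ k ∂P := fun k => map_int _ (pk k)
  have mk : ∀ k : ℕ, k ≤ 3 → Tendsto (fun n => (∫ z in Ω, u (σ n) z ^ k) / (volume Ω).toReal) atTop
      (𝓝 (∫ x, x ^ k ∂P)) := by
    intro k hk
    rw [← eP]
    exact (m3 k hk).congr fun n => eL n k
  constructor
  · refine ⟨iP, ?_, ?_, ?_, ?_⟩
    · have h1 := (gmean H.G).comp hσ.tendsto_atTop
      have h2 := mk 1 (by norm_num)
      simp only [pow_one] at h2
      exact tendsto_nhds_unique h2 h1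
    · have h2 := mk 2 (by norm_num)
      have h1 : Tendsto (fun n => (∫ z in Ω, u (σ n) z ^ 2) / (volume Ω).toReal) atTop (𝓝 1) := by
        refine tendsto_const_nhds.congr fun n => ?_
        rw [H.l2, div_self V0.ne']
      exact tendsto_nhds_unique h2 h1
    · have h2 := mk 3 (by norm_num)
      have h1 := (H.third.comp hσ.tendsto_atTop).div_const (volume Ω).toReal
      rw [zero_div] at h1
      exact tendsto_nhds_unique h2 h1
    · rw [← eP]
      refine m2 κ fun δ hδ => ?_
      filter_upwards [hσ.tendsto_atTop.eventually (hκ δ hδ)] with n hn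
      rw [eL, div_le_iff₀ V0]
      exact hn
  · obtain ⟨k3, hs⟩ := H.small hκ
    refine le_of_forall_pos_le_add fun η hη => ?_
    obtain ⟨t, t0, ht⟩ := hs η hη
    have tb : ∃ M, ∀ x, |tent t x| ≤ M :=
      ⟨1, fun x => by rw [abs_of_nonneg (tent_nn t _)]; exact tent_le t0 _⟩
    have h1 : ∫ x, tent t x ∂P ≤ (κ - 3) / (κ - 2) + η := by
      refine le_of_tendsto (hP (tent t) (tent_cont t) tb)
        ((hσ.tendsto_atTop.eventually ht).mono fun n hn => ?_)
      rw [div_le_iff₀ V0]
      refine le_trans ?_ hn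
      have mS : MeasurableSet {z | z ∈ Ω ∧ u (σ n) z ∈ Set.Icc (-t) t} := by
        have e : {z | z ∈ Ω ∧ u (σ n) z ∈ Set.Icc (-t) t} =
            Ω ∩ (ex Ω u (σ n)) ⁻¹' (Set.Icc (-t) t) := by
          ext z
          constructor
          · rintro ⟨a, b⟩
            refine ⟨a, ?_⟩
            show ex Ω u (σ n) z ∈ Set.Icc (-t) t
            rw [ex_on a]; exact b
          · rintro ⟨a, b⟩
            refine ⟨a, ?_⟩
            have c : ex Ω u (σ n) z ∈ Set.Icc (-t) t := b
            rwa [ex_on a] at c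
        rw [e]
        exact H.G.oΩ.measurableSet.inter (H.meas _ measurableSet_Icc)
      have e2 : (volume {z | z ∈ Ω ∧ u (σ n) z ∈ Set.Icc (-t) t}).toReal =
          ∫ z in Ω, {z | z ∈ Ω ∧ u (σ n) z ∈ Set.Icc (-t) t}.indicator (fun _ => (1 : ℝ)) z := by
        rw [setIntegral_indicator mS, setIntegral_const, smul_eq_mul, mul_one, measureReal_def]
        congr 2
        ext z
        constructor
        · intro h; exact ⟨h.1, h⟩
        · intro h; exact h.2
      rw [e2]
      refine setIntegral_mono_on ?_ ((integrable_const (1 : ℝ)).indicator mS)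
        H.G.oΩ.measurableSet fun z hz => ?_
      · refine Integrable.mono' (integrable_const (1 : ℝ))
          (((tent_cont t).comp_continuousOn (H.G.su _).continuousOn).aestronglyMeasurable
            H.G.oΩ.measurableSet) (ae_of_all _ fun z => ?_)
        rw [Real.norm_eq_abs, abs_of_nonneg (tent_nn t _)]
        exact tent_le t0 _
      · by_cases h : u (σ n) z ∈ Set.Icc (-t) t
        · rw [Set.indicator_of_mem (show z ∈ {z | z ∈ Ω ∧ u (σ n) z ∈ Set.Icc (-t) t} from ⟨hz, h⟩)]
          exact tent_le t0 _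
        · rw [Set.indicator_of_notMem (show z ∉ {z | z ∈ Ω ∧ u (σ n) z ∈ Set.Icc (-t) t} from
            fun q => h q.2)]
          refine (tent_out t0 (not_le.1 fun q => h (abs_le.1 q))).le
    refine le_trans ?_ h1
    rw [← integral_indicator_one (measurableSet_singleton (0 : ℝ))]
    refine integral_mono ((integrable_const (1 : ℝ)).indicator (measurableSet_singleton _)) ?_
      fun p => ?_
    · refine Integrable.mono' (integrable_const (1 : ℝ)) (tent_cont t).aestronglyMeasurable
        (ae_of_all _ fun z => ?_)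
      rw [Real.norm_eq_abs, abs_of_nonneg (tent_nn t _)]
      exact tent_le t0 _
    · by_cases hp : p = 0
      · rw [hp, Set.indicator_of_mem (Set.mem_singleton _), tent_zero]
        exact le_refl _
      · rw [Set.indicator_of_notMem (show p ∉ ({0} : Set ℝ) from hp)]
        exact tent_nn t _

end

end Run7.h694.PF
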